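import Pool.Agent.H8.UG.Targets
import Pool.Agent.H10.UB.CDG
import Pool.Agent.H78.UB.CDE

/-! # Row RSF: restriction keeps finitely generated subfunctors -/

set_option autoImplicit false

open CategoryTheory

namespace Pool.Agent.H11.UBG

open Pool.Agent.H8.UB Pool.Agent.H8.UG Pool.Agent.H56.UDs

theorem rsSub_fn {S T : Type} [Ring S] [Ring T] {f : S →+* T} (hf : FinHom f) (c : Cd S) :
    rsSub hf c.fn = (c.map f).fn := by
  refine Pool.Agent.H78.UB.sub_ext fun M x => ?_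
  constructor
  · rintro ⟨y, hy⟩
    exact ⟨y, fun j => hy j⟩
  · rintro ⟨y, hy⟩
    exact ⟨y, fun j => hy j⟩

theorem pf_RSF : G_RSF := by
  intro S T _ _ _ f hf A hA
  obtain ⟨c, rfl⟩ := Pool.Agent.H78.UB.pf_CDE S A hA
  rw [rsSub_fn hf c]
  exact (Pool.Agent.H10.UB.pf_CDG T).1 _

end Pool.Agent.H11.UBG
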